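import Pool.Agent.P.MP_0d94a4_lc.Main

universe u

open Pool.Agent.Lib.Forcing Pool.Agent.P.MP_0d94a4_lc

/-- There is a transitive model `N` of ZFC in which (R) holds (for every real `a` the Raisonnier
filter of `2^ω ∩ L[a]` is rapid) and (D) fails (for some real `a` no real dominates over `L[a]`).
Hence ZFC does not prove that (R) implies (D). -/
theorem Pool.Agent.Results.MP_0d94a4_lc.RapidNotDominating.result :
    ∃ N : Set ZFSet.{u}, IsZFModel N ∧ Choice N ∧ PropR N ∧ ¬ PropD N :=
  exists_model
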